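import Pool.Agent.W845.HC.Base

set_option autoImplicit false
set_option linter.all false
open scoped Classical
open Filter Topology
open scoped BigOperators

namespace Pool.Agent.W918.HC

open Pool.Agent.W845.PM Pool.Agent.W845.HC

noncomputable section

theorem acyclic_of_pos {V : Type} (F : SimpleGraph V) (pos : V → ℕ) (hpos : Function.Injective pos)
    (h : ∀ a b, F.Adj a b → pos b = pos a + 1 ∨ pos a = pos b + 1) : F.IsAcyclic := by
  intro v c hc
  obtain ⟨a, ha, hmax⟩ : ∃ a ∈ c.support, ∀ b ∈ c.support, pos b ≤ pos a := by
    obtain ⟨a, ha, hm⟩ := Finset.exists_max_image c.support.toFinset pos ⟨v, by simp⟩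
    exact ⟨a, by simpa using ha, fun b hb => hm b (by simpa using hb)⟩
  have hc' := hc.rotate ha
  set c' := c.rotate a ha with hc'def
  have hmem : ∀ b ∈ c'.support, b ∈ c.support := by
    intro b hb
    rw [hc'def] at hb
    simpa using hb
  have hnil : ¬ c'.Nil := hc'.not_nil
  have h1 : F.Adj a c'.snd := c'.adj_snd hnil
  have h2 : F.Adj c'.penultimate a := c'.adj_penultimate hnil
  have h3 : pos c'.snd ≤ pos a := hmax _ (hmem _ (c'.getVert_mem_support 1))
  have h4 : pos c'.penultimate ≤ pos a := hmax _ (hmem _ (c'.getVert_mem_support _))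
  have h5 := h _ _ h1
  have h6 := h _ _ h2
  apply hc'.snd_ne_penultimate
  apply hpos
  omega

theorem enum_of_ham {m : ℕ} (G : SimpleGraph (Fin (m + 3))) (h : G.IsHamiltonian) :
    ∃ f : Fin (m + 3) ≃ Fin (m + 3), ∀ i, G.Adj (f i) (f (i + 1)) := by
  have hc : Fintype.card (Fin (m + 3)) ≠ 1 := by simp
  obtain ⟨a, p, hp⟩ := h (by first | exact hc | exact (by simp))
  have hlen : p.length = m + 3 := by
    have := hp.length_eq
    rw [this]
    simp
  have hinj : Function.Injective (fun i : Fin (m + 3) => p.getVert i.val) := by
    intro i j hij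
    have hi := i.2
    have hj := j.2
    have := hp.isCycle.getVert_injOn' (by rw [Set.mem_ofPred_eq]; omega) (by rw [Set.mem_ofPred_eq]; omega) hij
    exact Fin.ext this
  refine ⟨Equiv.ofBijective _ (Finite.injective_iff_bijective.1 hinj), fun i => ?_⟩
  show G.Adj (p.getVert i.val) (p.getVert (i + 1 : Fin (m + 3)).val)
  have hi := i.2
  have hadj : G.Adj (p.getVert i.val) (p.getVert (i.val + 1)) := p.adj_getVert_succ (by omega)
  by_cases hl : i.val + 1 = m + 3
  · have h0 : (i + 1 : Fin (m + 3)) = 0 := by
      apply Fin.ext
      rw [Fin.val_add, Fin.val_one, hl]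
      simp
    rw [h0]
    have h1 : p.getVert (i.val + 1) = a := p.getVert_of_length_le (by omega)
    rw [h1] at hadj
    simpa using hadj
  · have h0 : (i + 1 : Fin (m + 3)).val = i.val + 1 := by
      rw [Fin.val_add, Fin.val_one, Nat.mod_eq_of_lt (by omega)]
    rw [h0]
    exact hadj

theorem kbh_aux (m d : ℕ) (R : SimpleGraph (Fin (m + 3))) (e : Fin (m + 3 - d) ↪ Fin (m + 3))
    (hd1 : 1 ≤ d) (hdn : d ≤ m + 3) (he : ∀ x : Fin (m + 3), x ∈ Set.range e ↔ d ≤ x.val)
    (hH : (KB (m + 3) d ⊔ R).IsHamiltonian) :
    ∃ F : SimpleGraph (Fin (m + 3 - d)), F ≤ R.comap e ∧ IsLF F ∧ m + 3 ≤ ec F + 2 * d := by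
  obtain ⟨f, hf⟩ := enum_of_ham _ hH
  have he' : ∀ a, d ≤ (e a).val := fun a => (he (e a)).1 ⟨a, rfl⟩
  set x0 : Fin (m + 3) := ⟨0, by omega⟩ with hx0
  set k : Fin (m + 3) := f.symm x0 with hk
  have hfk : f k = x0 := by rw [hk]; simp
  -- the rotated enumeration
  set g : Fin (m + 3) → Fin (m + 3) := fun i => f (i + k) with hg
  have hginj : Function.Injective g := by
    intro i j hij
    have := f.injective hij
    exact add_right_cancel this
  have hgs : Function.Surjective g := Finite.injective_iff_surjective.1 hginj
  have hg0 : g 0 = x0 := by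
    rw [hg]
    simp only [zero_add]
    exact hfk
  have hgadj : ∀ i, (KB (m + 3) d ⊔ R).Adj (g i) (g (i + 1)) := by
    intro i
    have := hf (i + k)
    have h2 : i + k + 1 = (i + 1) + k := add_right_comm i k 1
    rw [h2] at this
    exact this
  set F : SimpleGraph (Fin (m + 3 - d)) := {
    Adj := fun a b => ∃ i, (g i = e a ∧ g (i + 1) = e b) ∨ (g i = e b ∧ g (i + 1) = e a)
    symm := ⟨fun a b h => by
      obtain ⟨i, h⟩ := h
      exact ⟨i, h.symm⟩⟩
    loopless := ⟨fun a h => by
      obtain ⟨i, h⟩ := h
      have h1 : g i = g (i + 1) := by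
        rcases h with h | h
        · exact h.1.trans h.2.symm
        · exact h.1.trans h.2.symm
      have h2 : i = i + 1 := hginj h1
      have h3 : (1 : Fin (m + 3)) = 0 := by
        have := left_eq_add.1 h2
        exact this
      have := congrArg Fin.val h3
      simp at this⟩ } with hF
  have hFadj : ∀ a b, F.Adj a b ↔ ∃ i, (g i = e a ∧ g (i + 1) = e b) ∨ (g i = e b ∧ g (i + 1) = e a) :=
    fun a b => Iff.rfl
  have hRR : ∀ i a b, g i = e a → g (i + 1) = e b → R.Adj (e a) (e b) := by
    intro i a b h1 h2
    have h3 := hgadj i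
    rw [h1, h2, SimpleGraph.sup_adj] at h3
    rcases h3 with h3 | h3
    · exfalso
      have ha := he' a
      have hb := he' b
      rcases h3 with h3 | h3 <;> omega
    · exact h3
  refine ⟨F, ?_, ⟨?_, ?_⟩, ?_⟩
  · intro a b hab
    obtain ⟨i, h | h⟩ := (hFadj a b).1 hab
    · exact hRR i a b h.1 h.2
    · exact (hRR i b a h.1 h.2).symm
  · -- acyclic
    choose gi hgi using hgs
    have hgii : Function.Injective gi := by
      intro x y hxy
      rw [← hgi x, ← hgi y, hxy]
    apply acyclic_of_pos F (fun a => (gi (e a)).val)
    · intro a b hab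
      exact e.injective (hgii (Fin.ext hab))
    · intro a b hab
      have key : ∀ i a b, g i = e a → g (i + 1) = e b → (gi (e b)).val = (gi (e a)).val + 1 := by
        intro i a b h1 h2
        have h3 : gi (e a) = i := hginj (by rw [hgi, h1])
        have h4 : gi (e b) = i + 1 := hginj (by rw [hgi, h2])
        rw [h3, h4]
        have hi := i.2
        by_cases hl : i.val + 1 = m + 3
        · exfalso
          have h0 : (i + 1 : Fin (m + 3)) = 0 := by
            apply Fin.ext
            rw [Fin.val_add, Fin.val_one, hl]
            simp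
          rw [h0, hg0] at h2
          have := he' b
          rw [← h2] at this
          simp only [hx0] at this
          omega
        · rw [Fin.val_add, Fin.val_one, Nat.mod_eq_of_lt (by omega)]
      obtain ⟨i, h | h⟩ := (hFadj a b).1 hab
      · exact Or.inl (key i a b h.1 h.2)
      · exact Or.inr (key i b a h.1 h.2)
  · -- degrees
    intro a
    obtain ⟨i, hi⟩ := hgs (e a)
    unfold dg
    have hsub : (Finset.univ.filter (fun w => F.Adj a w)).card ≤ ({g (i + 1), g (i - 1)} : Finset (Fin (m + 3))).card := by
      apply Finset.card_le_card_of_injOn e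
      · intro w hw
        simp only [Finset.coe_filter, Finset.mem_univ, true_and, Set.mem_setOf_eq] at hw
        simp only [Finset.coe_insert, Finset.coe_singleton, Set.mem_insert_iff, Set.mem_singleton_iff]
        obtain ⟨j, h | h⟩ := (hFadj a w).1 (by simpa using hw)
        · left
          have : j = i := hginj (h.1.trans hi.symm)
          rw [← h.2, this]
        · right
          have : j + 1 = i := hginj (h.2.trans hi.symm)
          rw [← h.1, ← this]
          simp
      · exact e.injective.injOn
    have h2 := hsub.trans Finset.card_le_two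
    refine le_trans (le_of_eq ?_) h2
    congr
  · -- number of edges
    by_cases hz : m + 3 - d = 0
    · omega
    have hne : Nonempty (Fin (m + 3 - d)) := ⟨⟨0, by omega⟩⟩
    set ei : Fin (m + 3) → Fin (m + 3 - d) := Function.invFun e with hei
    have heie : ∀ x : Fin (m + 3), d ≤ x.val → e (ei x) = x := by
      intro x hx
      exact Function.invFun_eq ((he x).2 hx)
    set S : Finset (Fin (m + 3)) := Finset.univ.filter (fun i => d ≤ (g i).val ∧ d ≤ (g (i + 1)).val) with hS
    have hcS : S.card ≤ F.edgeSet.ncard := by
      rw [← Set.ncard_coe_finset]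
      apply Set.ncard_le_ncard_of_injOn (fun i => s(ei (g i), ei (g (i + 1))))
      · intro i hi
        simp only [hS, Finset.coe_filter, Finset.mem_univ, true_and, Set.mem_setOf_eq] at hi
        rw [SimpleGraph.mem_edgeSet, hFadj]
        exact ⟨i, Or.inl ⟨(heie _ hi.1).symm, (heie _ hi.2).symm⟩⟩
      · intro i hi j hj hij
        simp only [hS, Finset.coe_filter, Finset.mem_univ, true_and, Set.mem_setOf_eq] at hi hj
        simp only [Sym2.eq_iff] at hij
        rcases hij with h | h
        · have h1 := congrArg e h.1
          rw [heie _ hi.1, heie _ hj.1] at h1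
          exact hginj h1
        · exfalso
          have h1 := congrArg e h.1
          have h2 := congrArg e h.2
          rw [heie _ hi.1, heie _ hj.2] at h1
          rw [heie _ hi.2, heie _ hj.1] at h2
          have h3 := hginj h1
          have h4 := hginj h2
          rw [h3] at h4
          have h5 : (1 + 1 : Fin (m + 3)) = 0 := by
            have : j + (1 + 1) = j := by rw [← add_assoc]; exact h4
            exact add_eq_left.1 this
          have h6 := congrArg Fin.val h5
          rw [Fin.val_add, Fin.val_one, Nat.mod_eq_of_lt (by omega)] at h6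
          simp at h6
    have hA : (Finset.univ.filter (fun i => (g i).val < d)).card ≤ d := by
      have : (Finset.univ.filter (fun i => (g i).val < d)).card ≤ (Finset.range d).card := by
        apply Finset.card_le_card_of_injOn (fun i => (g i).val)
        · intro i hi
          simpa using hi
        · intro i _ j _ hij
          exact hginj (Fin.ext hij)
      simpa using this
    have hB : (Finset.univ.filter (fun i => (g (i + 1)).val < d)).card ≤ d := by
      have : (Finset.univ.filter (fun i => (g (i + 1)).val < d)).card ≤ (Finset.range d).card := by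
        apply Finset.card_le_card_of_injOn (fun i => (g (i + 1)).val)
        · intro i hi
          simpa using hi
        · intro i _ j _ hij
          exact add_right_cancel (hginj (Fin.ext hij))
      simpa using this
    have hU : (Finset.univ : Finset (Fin (m + 3))) ⊆ S ∪ ((Finset.univ.filter (fun i => (g i).val < d)) ∪
        (Finset.univ.filter (fun i => (g (i + 1)).val < d))) := by
      intro i _
      simp only [hS, Finset.mem_union, Finset.mem_filter, Finset.mem_univ, true_and]
      omega
    have hc := Finset.card_le_card hU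
    have hc2 := Finset.card_union_le S ((Finset.univ.filter (fun i => (g i).val < d)) ∪
        (Finset.univ.filter (fun i => (g (i + 1)).val < d)))
    have hc3 := Finset.card_union_le (Finset.univ.filter (fun i => (g i).val < d))
        (Finset.univ.filter (fun i => (g (i + 1)).val < d))
    rw [Finset.card_univ, Fintype.card_fin] at hc
    unfold ec
    omega

theorem kbh : S_LAM → S_KBH := by
  intro hL n d R e hn hd1 hdn he hH
  obtain ⟨m, rfl⟩ : ∃ m, n = m + 3 := ⟨n - 3, by omega⟩
  obtain ⟨F, h1, h2, h3⟩ := kbh_aux m d R e hd1 hdn he hH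
  have := hL.2.1 _ (R.comap e) F h1 h2
  omega

end

end Pool.Agent.W918.HC
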